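import Pool.Agent.L0h17.KU.Kod
import Pool.Agent.L0h17.KU.Setup
import Pool.Agent.L0h17.KU.Pt1
import Pool.Agent.L0h17.TR.Core

/-!
The Kodaira dimension is invariant under extensions of the ground field: descent.
-/

set_option autoImplicit false
set_option linter.overlappingInstances false
set_option linter.unusedSectionVars false

open FF IntermediateField Pool.Agent.W619.PQ Pool.Agent.W619.PL Pool.Agent.W619.TW
  Pool.Agent.W603.LV Pool.Agent.Y173.QA MvPolynomial Pool.Agent.TH122.AB
open Pool.Agent.W602.GT (Divisorial RegAt IsPluri DerReg)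
open Pool.Agent.L0h17.DN (exists_indep ratio_eq ne_frame)
open Pool.Agent.L0h17.TR (KodR)
open Pool.Agent.L0h17.KU hiding KodR

namespace Pool.Agent.L0h17.IT

section

variable {k K : Type} [Field k] [Field K] [Algebra k K] {F : IntermediateField k K}

/-- a place which is trivial on `F`, as a place over `F` -/
def lp (P : Place k K) (hF : ∀ z : F, P.ord (z : K) = 0) : Place F K where
  ord := P.ord
  ord_zero := P.ord_zero
  ord_mul := P.ord_mul
  ord_add := P.ord_add
  ord_const := fun {c} _ => hF c
  surj := P.surj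

/-- a derivation which kills `F`, as a derivation over `F` -/
def ld (D : Derivation k K K) (hD : ∀ z : F, D (z : K) = 0) : Derivation F K K :=
  Derivation.mk' { toFun := D
                   map_add' := map_add D
                   map_smul' := fun c x => by
                     have h1 : c • x = (c : K) * x := rfl
                     rw [h1, D.leibniz, hD, smul_zero, add_zero]
                     rfl } fun a b => D.leibniz a b

theorem ld_apply (D : Derivation k K K) (hD : ∀ z : F, D (z : K) = 0) (x : K) :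
    ld D hD x = D x := rfl

end

section

variable {k K : Type} [Field k] [CharZero k] [Field K] [Algebra k K]
  {M F : IntermediateField k K} {a b : ℕ}
  {y : Fin a → F} {t : Fin b → M} {Ey : Fin a → Derivation k K K}
  {Et : Fin b → Derivation k K K}

/-- The places over the mixed polynomials are divisorial over `F`. -/
theorem mixed_div (h : Pr M F) (f : Frm M F y t Ey Et)
    {p : MvPolynomial (Fin (a + b)) k} (hm : Mx p) {P : Place k K} (hP : Adic (ZZ y t) p P) :
    Divisorial b (lp P (trivF f hm hP)) := by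
  classical
  obtain ⟨-, j, hj⟩ := id hm
  obtain ⟨b', rfl⟩ := Nat.exists_eq_succ_of_ne_zero (show b ≠ 0 by
    rintro rfl
    exact j.elim0)
  obtain ⟨σ, hσ⟩ : ∃ σ : Fin a ⊕ Fin b' → Fin (a + (b' + 1)),
      σ = Sum.elim (Fin.castAdd (b' + 1)) fun i => Fin.natAdd a (j.succAbove i) := ⟨_, rfl⟩
  have hσl : ∀ i, σ (Sum.inl i) = Fin.castAdd (b' + 1) i := fun i => by rw [hσ]; rfl
  have hσr : ∀ i, σ (Sum.inr i) = Fin.natAdd a (j.succAbove i) := fun i => by rw [hσ]; rfl
  have hσi : Function.Injective σ := by
    rintro (i | i) (i' | i') h1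
    · rw [hσl, hσl] at h1
      rw [Fin.castAdd_injective a _ h1]
    · rw [hσl, hσr] at h1
      exact absurd h1 (castAdd_ne _ _)
    · rw [hσl, hσr] at h1
      exact absurd h1.symm (castAdd_ne _ _)
    · rw [hσr, hσr] at h1
      rw [Fin.succAbove_right_injective (Fin.natAdd_injective _ a h1)]
  have hσj : Fin.natAdd a j ∉ Set.range σ := by
    rintro ⟨i | i, h1⟩
    · rw [hσl] at h1
      exact castAdd_ne _ _ h1
    · rw [hσr] at h1
      exact Fin.succAbove_ne j i (Fin.natAdd_injective _ a h1)
  obtain ⟨K0, hK0⟩ : ∃ K0 : IntermediateField k K,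
      K0 = IntermediateField.adjoin k (Set.range (ZZ y t ∘ σ)) := ⟨_, rfl⟩
  obtain ⟨K1, hK1⟩ : ∃ K1 : IntermediateField K0 K, K1 = algebraicClosure K0 K := ⟨_, rfl⟩
  have halg1 : Algebra.IsAlgebraic K0 K1 := by
    rw [hK1]
    exact algebraicClosure.isAlgebraic K0 K
  -- triviality
  have htriv0 : ∀ z : K0, P.ord (z : K) = 0 := by
    rintro ⟨z, hz⟩
    change P.ord z = 0
    rw [hK0, IntermediateField.mem_adjoin_range_iff] at hz
    obtain ⟨r, s, rfl⟩ := hz
    have key : ∀ r : MvPolynomial (Fin a ⊕ Fin b') k, aeval (ZZ y t ∘ σ) r ≠ 0 →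
        P.ord (aeval (ZZ y t ∘ σ) r) = 0 := by
      intro r hr
      rw [← aeval_rename]
      have hr0 : r ≠ 0 := by
        rintro rfl
        exact hr (map_zero _)
      refine (hP _ ?_).2.2 (not_dvd_of_degreeOf hj ?_ ?_)
      · exact fun h0 => hr0 (rename_injective _ hσi (by rw [h0, map_zero]))
      · exact degreeOf_rename_zero hσj r
      · exact fun h0 => hr0 (rename_injective _ hσi (by rw [h0, map_zero]))
    by_cases hr : aeval (ZZ y t ∘ σ) r = 0
    · rw [hr, zero_div]
      exact P.ord_zero
    by_cases hs : aeval (ZZ y t ∘ σ) s = 0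
    · rw [hs, div_zero]
      exact P.ord_zero
    rw [P.ord_div hr hs, key r hr, key s hs, sub_zero]
  have hst : IsScalarTower k K1 K := IsScalarTower.of_algebraMap_eq fun c => rfl
  have htriv1 : ∀ z : K1, P.ord (z : K) = 0 := fun z =>
    ord_eq_zero_of_alg (K0 := K0) (K1 := K1) (K2 := K) P (fun z => htriv0 z) z
  have hF1 : ∀ z : F, (z : K) ∈ K1 := by
    intro z
    rw [hK1, mem_algebraicClosure_iff]
    refine alg_of f.hy F.val K0.toSubalgebra (fun i => ?_) z
    change ((y i : F) : K) ∈ K0
    rw [hK0]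
    refine IntermediateField.subset_adjoin _ _ ⟨Sum.inl i, ?_⟩
    rw [Function.comp_apply, hσl, ZZ_left]
  have ht1 : ∀ i, (t (j.succAbove i) : K) ∈ K1 := by
    intro i
    have h1 : (t (j.succAbove i) : K) ∈ K0 := by
      rw [hK0]
      refine IntermediateField.subset_adjoin _ _ ⟨Sum.inr i, ?_⟩
      rw [Function.comp_apply, hσr, ZZ_right]
    exact K1.algebraMap_mem ⟨_, h1⟩
  refine ⟨fun i : Fin b' => (t (j.succAbove i) : K), fun G hG => ?_⟩
  change MvPolynomial (Fin b') F at G
  constructor
  · have h1 := (indep_over h f.ht.1).comp j.succAbove Fin.succAbove_right_injective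
    intro h0
    exact hG ((injective_iff_map_eq_zero _).1 h1 G h0)
  · change P.ord (aeval (fun i : Fin b' => (t (j.succAbove i) : K)) G) = 0
    have hmem : aeval (fun i : Fin b' => (t (j.succAbove i) : K)) G ∈ K1 := by
      rw [aeval_def, eval₂_eq']
      refine sum_mem fun α _ => mul_mem (hF1 _) (prod_mem fun i _ => pow_mem (ht1 i) _)
    exact htriv1 ⟨_, hmem⟩

/-- The Gauss extensions are divisorial over `F`. -/
theorem gauss_div [IsAlgClosed k] (h : Pr M F) (u : Place k M) (hu : Divisorial b u) :
    Divisorial b (lp (UU h u) (UU_F h u)) := by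
  classical
  obtain ⟨v, hv⟩ := hu
  refine ⟨fun i => (v i : K), fun G hG => ?_⟩
  change _ ∧ (UU h u).ord _ = 0
  let β := Module.Basis.ofVectorSpace k F
  obtain ⟨α0, hα0⟩ := MvPolynomial.ne_zero_iff.1 hG
  obtain ⟨i0, hi0⟩ : ∃ i, β.repr (G.coeff α0) i ≠ 0 := by
    by_contra hcon
    push Not at hcon
    exact hα0 (β.repr.map_eq_zero_iff.1 (Finsupp.ext hcon))
  let s : Finset (Module.Basis.ofVectorSpaceIndex k F) :=
    G.support.biUnion fun α => (β.repr (G.coeff α)).support
  let g : Module.Basis.ofVectorSpaceIndex k F → MvPolynomial (Fin (b - 1)) k := fun i =>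
    ∑ α ∈ G.support, monomial α (β.repr (G.coeff α) i)
  have hg : ∀ i α, (g i).coeff α = β.repr (G.coeff α) i := by
    intro i α
    change coeff α (∑ α ∈ G.support, monomial α (β.repr (G.coeff α) i)) = _
    rw [MvPolynomial.coeff_sum]
    simp only [coeff_monomial]
    by_cases hα : α ∈ G.support
    · rw [Finset.sum_ite_eq', if_pos hα]
    · rw [Finset.sum_ite_eq', if_neg hα, MvPolynomial.notMem_support_iff.1 hα, map_zero,
        Finsupp.zero_apply]
  have hgv : ∀ i, aeval v (g i) = ∑ α ∈ G.support, algebraMap k M (β.repr (G.coeff α) i) *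
      ∏ j, v j ^ α j := by
    intro i
    change aeval v (∑ α ∈ G.support, monomial α (β.repr (G.coeff α) i)) = _
    rw [map_sum]
    refine Finset.sum_congr rfl fun α _ => ?_
    rw [aeval_monomial, Finsupp.prod_fintype _ _ fun i => pow_zero _]
  have hexp : aeval (fun i => (v i : K)) G = ∑ i ∈ s, (β i : K) * ((aeval v (g i) : M) : K) := by
    have h1 : ∀ α ∈ G.support, ((G.coeff α : F) : K) =
        ∑ i ∈ s, (β i : K) * algebraMap k K (β.repr (G.coeff α) i) := by
      intro α hα
      conv_lhs => rw [← β.linearCombination_repr (G.coeff α)]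
      rw [Finsupp.linearCombination_apply, Finsupp.sum, AddSubmonoidClass.coe_finsetSum]
      have h2 : (β.repr (G.coeff α)).support ⊆ s := by
        intro i hi
        exact Finset.mem_biUnion.2 ⟨α, hα, hi⟩
      rw [← Finset.sum_subset h2 fun i _ hi => by
        rw [Finsupp.notMem_support_iff.1 hi, map_zero, mul_zero]]
      refine Finset.sum_congr rfl fun i _ => ?_
      change β.repr (G.coeff α) i • (β i : K) = _
      rw [Algebra.smul_def, mul_comm]
    rw [aeval_def, eval₂_eq']
    have h3 : ∀ i ∈ s, (β i : K) * ((aeval v (g i) : M) : K) = ∑ α ∈ G.support,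
        (β i : K) * algebraMap k K (β.repr (G.coeff α) i) * ∏ j, (v j : K) ^ α j := by
      intro i _
      rw [hgv, AddSubmonoidClass.coe_finsetSum, Finset.mul_sum]
      refine Finset.sum_congr rfl fun α _ => ?_
      push_cast
      rw [mul_assoc]
    rw [Finset.sum_congr rfl h3, Finset.sum_comm]
    refine Finset.sum_congr rfl fun α hα => ?_
    rw [← Finset.sum_mul]
    congr 1
    exact h1 α hα
  have hge : Ge (UU h u) 0 (aeval (fun i => (v i : K)) G) := by
    rw [hexp]
    refine Ge.sum _ _ fun i _ => ?_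
    have h3 : Ge (UU h u) 0 (β i : K) := Or.inr (UU_F h u _).ge
    have h1 : Ge (UU h u) 0 ((aeval v (g i) : M) : K) := by
      right
      rw [UU_M]
      by_cases h0 : g i = 0
      · rw [h0, map_zero, u.ord_zero]
      · exact (hv _ h0).2.ge
    have h4 := h3.mul h1
    rwa [zero_add] at h4
  have hnge : ¬ Ge (UU h u) 1 (aeval (fun i => (v i : K)) G) := by
    intro hc
    rw [hexp] at hc
    have hi0s : i0 ∈ s := Finset.mem_biUnion.2 ⟨α0, MvPolynomial.mem_support_iff.2 hα0,
      Finsupp.mem_support_iff.2 hi0⟩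
    have h1 := UU_fin h u s β (fun i => aeval v (g i)) 1 β.linearIndependent hc i0 hi0s
    have hg0 : g i0 ≠ 0 := fun h0 => hi0 (by rw [← hg, h0, MvPolynomial.coeff_zero])
    have h3 := hv _ hg0
    rcases h1 with h1 | h1
    · exact h3.1 h1
    · have h4 := h3.2
      omega
  refine ⟨fun h0 => hnge (Or.inl h0), ?_⟩
  rcases hge with h1 | h1
  · exact absurd (Or.inl h1) hnge
  · by_contra h2
    exact hnge (Or.inr (by omega))

end

end Pool.Agent.L0h17.IT
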