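import Pool.Agent.L0h17.IT.BC

/-!
The Kodaira dimension is invariant under extensions of the ground field: descent.
-/

set_option autoImplicit false
set_option linter.overlappingInstances false
set_option linter.unusedSectionVars false

open FF IntermediateField Pool.Agent.W619.PQ Pool.Agent.W619.PL Pool.Agent.W619.TW
  Pool.Agent.W603.LV Pool.Agent.Y173.QA MvPolynomial Pool.Agent.TH122.AB
open Pool.Agent.W602.GT (Divisorial RegAt IsPluri DerReg)
open Pool.Agent.L0h17.DN (exists_indep ratio_eq ne_frame)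
open Pool.Agent.L0h17.TR (KodR)
open Pool.Agent.L0h17.KU hiding KodR

namespace Pool.Agent.L0h17.IT

section

variable {k K : Type} [Field k] [CharZero k] [Field K] [Algebra k K]
  {M F : IntermediateField k K} {a b : ℕ}
  {y : Fin a → F} {t : Fin b → M} {Ey : Fin a → Derivation k K K}
  {Et : Fin b → Derivation k K K}

/-- the values of the regular forms over `F` on the frame -/
theorem val_mem [IsAlgClosed k] (h : Pr M F) (f : Frm M F y t Ey Et)
    (hZ : IsTranscendenceBasis k (ZZ y t))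
    (hfd : FiniteDimensional (IntermediateField.adjoin k (Set.range (ZZ y t))) K)
    {Φ : (Fin b → Derivation F K K) → K}
    (hΦ : ∀ P : Place F K, Divisorial b P → RegAt P Φ) :
    Φ (fun j => ld (Et j) (f.kill j)) ∈ RR M F := by
  refine good_mem h f hZ hfd fun p hp hm P hP => ?_
  exact hΦ _ (mixed_div h f hm hP) _ fun j z hz => pres_mx h f hZ hfd hp hm hP j z hz

/-- the components of the regular forms over `F` are regular -/
theorem comp_reg [IsAlgClosed k] (h : Pr M F) (f : Frm M F y t Ey Et) {m : ℕ}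
    {Φ : (Fin b → Derivation F K K) → K} (hp : IsPluri m Φ)
    (hΦ : ∀ P : Place F K, Divisorial b P → RegAt P Φ) {ι : Type} (s : Finset ι) (β : ι → F)
    (μ : ι → M) (hβ : LinearIndependent k β)
    (hs : Φ (fun j => ld (Et j) (f.kill j)) = ∑ i ∈ s, (β i : K) * (μ i : K)) (i : ι)
    (hi : i ∈ s) (u : Place k M) (hu : Divisorial b u) : RegAt u (cf (k := k) t m (μ i)) := by
  classical
  intro D hD
  -- the vector fields
  let D2 : Fin b → Derivation k K K := fun l => ∑ c, ((D l (t c) : M) : K) • Et c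
  have hD2M : ∀ l (z : M), D2 l (z : K) = ((D l z : M) : K) := by
    intro l z
    refine der_comp (K := M) (L := K) (D l) (D2 l) t f.ht (fun c => ?_) z
    show (∑ b, ((D l (t b) : M) : K) • Et b) ((t c : M) : K) = ((D l (t c) : M) : K)
    rw [Pool.Agent.W735.PG.DESCJ.der_sum]
    simp only [f.tt]
    simp
  have hD2F : ∀ l (β : F), D2 l (β : K) = 0 := by
    intro l β
    show (∑ b, ((D l (t b) : M) : K) • Et b) (β : K) = 0
    rw [Pool.Agent.W735.PG.DESCJ.der_sum]
    refine Finset.sum_eq_zero fun c _ => ?_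
    rw [f.kill, mul_zero]
  have hpres : ∀ l, Pres (UU h u) (D2 l) := fun l =>
    UU_pres h u _ (fun z hz => ⟨D l z, hD2M l z, hD l z hz⟩)
      (fun β => ⟨0, by rw [hD2F]; rfl⟩)
  obtain ⟨A, hA⟩ : ∃ A : Matrix (Fin b) (Fin b) K,
      A = (Matrix.of fun l c => D l (t c)).map (algebraMap M K) := ⟨_, rfl⟩
  have hAdet : A.det = (((Matrix.of fun l c => D l (t c)).det : M) : K) := by
    rw [hA]
    exact ((algebraMap M K).map_det _).symm
  have h1 := hp A (fun j => ld (Et j) (f.kill j))
  have h2 : (fun i => ∑ j, A i j • ld (Et j) (f.kill j)) = fun l => ld (D2 l) (hD2F l) := by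
    funext l
    ext x
    rw [Pool.Agent.W735.PG.DESCJ.der_sum]
    change _ = D2 l x
    change _ = (∑ c, ((D l (t c) : M) : K) • Et c) x
    rw [Pool.Agent.W735.PG.DESCJ.der_sum]
    refine Finset.sum_congr rfl fun c _ => ?_
    rw [hA]
    rfl
  have h3 : Ge (UU h u) 0 (Φ fun l => ld (D2 l) (hD2F l)) :=
    hΦ _ (gauss_div h u hu) _ fun l z hz => hpres l z hz
  rw [← h2, h1, hs, hAdet] at h3
  set δ : M := (Matrix.of fun l c => D l (t c)).det with hδ
  have h4 : (δ : K) ^ m * ∑ i ∈ s, (β i : K) * (μ i : K) =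
      ∑ i ∈ s, (β i : K) * ((δ ^ m * μ i : M) : K) := by
    rw [Finset.mul_sum]
    refine Finset.sum_congr rfl fun i _ => ?_
    push_cast
    ring
  rw [h4] at h3
  exact UU_fin h u s β (fun i => δ ^ m * μ i) 0 hβ h3 i hi

/-- **Descent of the Kodaira dimension along an extension of the ground field.** -/
theorem bc_down [IsAlgClosed k] (h : Pr M F) (f : Frm M F y t Ey Et)
    (hZ : IsTranscendenceBasis k (ZZ y t))
    (hfd : FiniteDimensional (IntermediateField.adjoin k (Set.range (ZZ y t))) K)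
    (hb : Algebra.trdeg F K = b) {q : ℕ} (hK : KodR F K b q) : KodR k M b q := by
  classical
  obtain ⟨m, hm, Φ, hΦ, D0, hD0, hind⟩ := hK
  obtain ⟨Ef, hEf⟩ : ∃ Ef : Fin b → Derivation F K K, Ef = fun j => ld (Et j) (f.kill j) :=
    ⟨_, rfl⟩
  have hfr0 : Φ 0 Ef ≠ 0 := by
    intro h0
    have hF0 : CharZero F := charZero_of_injective_algebraMap (algebraMap k F).injective
    have h1 := ratio_eq hb (hΦ 0).1 (hΦ 0).1 hD0 Ef
    have h2 : IsTranscendenceBasis F fun j => (t j : K) := by
      refine (indep_over h f.ht.1).isTranscendenceBasis_of_lift_trdeg_le_of_finite ?_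
      rw [hb]
      simp
    refine ne_frame (hΦ 0).1 hD0 h2 (E := Ef) (fun i j => ?_) h0
    rw [hEf]
    exact f.tt i j
  have hmem : ∀ j, Φ j Ef ∈ RR M F := fun j => by
    rw [hEf]
    exact val_mem h f hZ hfd (hΦ j).2
  choose s μ hs using fun j => RR.expand (RR.swap (hmem j))
  have hreg : ∀ j, ∀ i ∈ s j, ∀ P : Place k M, Divisorial b P →
      RegAt P (cf (k := k) t m (μ j i)) := fun j i hi u hu =>
    comp_reg h f (hΦ j).1 (hΦ j).2 (s j) _ (μ j)
      (Module.Basis.ofVectorSpace k F).linearIndependent (by rw [← hEf]; exact hs j) i hi u hu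
  obtain ⟨i0, hi0, hμ0⟩ : ∃ i ∈ s 0, μ 0 i ≠ 0 := by
    by_contra hcon
    push Not at hcon
    apply hfr0
    rw [hs]
    refine Finset.sum_eq_zero fun i hi => ?_
    rw [hcon i hi]
    simp
  have hμ0K : (μ 0 i0 : K) ≠ 0 := fun h0 => hμ0 (Subtype.ext h0)
  obtain ⟨E, hE⟩ := exists_duals f.ht
  have hF0 : CharZero F := charZero_of_injective_algebraMap (algebraMap k F).injective
  have hrat : ∀ j : Fin q, Φ j.succ D0 / Φ 0 D0 = Φ j.succ Ef / Φ 0 Ef := by
    intro j
    rw [ratio_eq hb (hΦ 0).1 (hΦ j.succ).1 hD0 Ef, mul_div_assoc, div_self hfr0, mul_one]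
  obtain ⟨T, hT⟩ : ∃ T : Set K, T = {x | ∃ (l : Fin (q + 1))
      (i : Module.Basis.ofVectorSpaceIndex k F), i ∈ s l ∧ x = ((μ l i / μ 0 i0 : M) : K)} :=
    ⟨_, rfl⟩
  have hadj : ∀ l, Φ l Ef / (μ 0 i0 : K) ∈ IntermediateField.adjoin F T := by
    intro l
    rw [hs l, Finset.sum_div]
    refine sum_mem fun i hi => ?_
    rw [mul_div_assoc]
    refine mul_mem ((IntermediateField.adjoin F T).algebraMap_mem _)
      (IntermediateField.subset_adjoin _ _ ?_)
    rw [hT]
    refine ⟨l, i, hi, ?_⟩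
    push_cast
    rfl
  obtain ⟨b', hb'T, hb'⟩ := exists_indep (k := F) (K := K) (L := K) T _ hind fun j => by
    have h1 : Φ j.succ D0 / Φ 0 D0 ∈ IntermediateField.adjoin F T := by
      rw [hrat]
      have h2 := div_mem (hadj j.succ) (hadj 0)
      rwa [div_div_div_cancel_right₀ hμ0K] at h2
    exact isAlgebraic_algebraMap (⟨_, h1⟩ : IntermediateField.adjoin F T)
  rw [hT] at hb'T
  choose l i hi hli using hb'T
  have hval : AlgebraicIndependent k fun j : Fin q => (μ (l j) (i j) / μ 0 i0 : M) := by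
    refine AlgebraicIndependent.of_comp M.val ?_
    have h1 : AlgebraicIndependent k b' := by
      refine AlgebraicIndependent.restrictScalars (K := F) (algebraMap k F).injective hb'
    have h2 : b' = (M.val ∘ fun j : Fin q => (μ (l j) (i j) / μ 0 i0 : M)) := by
      funext j
      exact hli j
    rwa [h2] at h1
  refine ⟨m, hm, Fin.cases (cf (k := k) t m (μ 0 i0))
    fun j => cf (k := k) t m (μ (l j) (i j)), fun j => ?_, E, ?_, ?_⟩
  · refine Fin.cases ?_ (fun j => ?_) j
    · exact ⟨cf_pluri _ _ _, hreg 0 i0 hi0⟩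
    · exact ⟨cf_pluri _ _ _, hreg (l j) (i j) (hi j)⟩
  · change cf (k := k) t m (μ 0 i0) E ≠ 0
    rwa [cf_frame hE]
  · have h3 : (fun j : Fin q => cf (k := k) t m (μ (l j) (i j)) E /
        cf (k := k) t m (μ 0 i0) E) = fun j : Fin q => (μ (l j) (i j) / μ 0 i0 : M) := by
      funext j
      rw [cf_frame hE, cf_frame hE]
    exact h3 ▸ hval

end

end Pool.Agent.L0h17.IT
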