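import Pool.Agent.L0h17.IT.Star

/-!
Easy addition for covering families: the Kodaira dimension of a variety is at most the Kodaira
dimension of the general member of a covering family plus the codimension, over any field of
characteristic zero.
-/

set_option autoImplicit false
set_option linter.overlappingInstances false
set_option linter.unusedSectionVars false

open FF IntermediateField Pool.Agent.W619.PQ Pool.Agent.W619.PL Pool.Agent.W619.TW
  Pool.Agent.W603.LV Pool.Agent.Y172
open Pool.Agent.W602.GT (Divisorial RegAt IsPluri DerReg exists_der)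
open Pool.Agent.L0h17.TR (KodR ff ff_pluri ev basis_in ext_basis alg_yr alg_push' exists_TX
  exists_sel der_ind)

namespace Pool.Agent.L0h17.IT

section

variable {Λ K : Type} [Field Λ] [Field K] [Algebra Λ K]

theorem alg_trans {S S' : Set K} (hS : ∀ x ∈ S, IsAlgebraic (IntermediateField.adjoin Λ S') x)
    {x : K} (hx : IsAlgebraic (IntermediateField.adjoin Λ S) x) :
    IsAlgebraic (IntermediateField.adjoin Λ S') x := by
  classical
  let A := IntermediateField.adjoin Λ S'
  let C : IntermediateField A K := algebraicClosure A K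
  have hle : ∀ z : IntermediateField.adjoin Λ S, (z : K) ∈ C := by
    intro z
    have h1 : (IntermediateField.adjoin Λ S).toSubfield ≤ C.toSubfield := by
      rw [IntermediateField.adjoin_toSubfield, Subfield.closure_le]
      rintro _ (⟨z, rfl⟩ | hz)
      · exact mem_algebraicClosure_iff.2 (isAlgebraic_algebraMap (algebraMap Λ A z))
      · exact mem_algebraicClosure_iff.2 (hS _ hz)
    exact h1 z.2
  have h5 : IsAlgebraic C x := hx.ringHom_of_comp_eq
    ((algebraMap (IntermediateField.adjoin Λ S) K).codRestrict C hle) (RingHom.id K)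
    (RingHom.injective _) rfl
  have h6 : Algebra.IsAlgebraic A C := algebraicClosure.isAlgebraic A K
  exact h5.restrictScalars A

/-- a bound for the transcendence degree -/
theorem card_bound {e N : ℕ} {f : Fin e → K} (hf : AlgebraicIndependent Λ f) {v : Fin N → K}
    (hv : ∀ i, IsAlgebraic (IntermediateField.adjoin Λ (Set.range v)) (f i)) : e ≤ N := by
  classical
  obtain ⟨b, hb, hbi⟩ := Pool.Agent.L0h17.DN.exists_indep (k := Λ) (L := K) (K := K)
    (Set.range v) f hf hv
  choose σ hσ using hb
  have hinj : Function.Injective σ := by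
    intro i j hij
    refine hbi.injective ?_
    rw [← hσ i, ← hσ j, hij]
  have := Fintype.card_le_of_injective σ hinj
  simpa using this

end

section

variable {k R Λ K : Type} [Field k] [CharZero k] [Field R] [Field Λ] [Field K] [Algebra k R]
  [Algebra k Λ] [Algebra k K] [Algebra Λ K] [IsScalarTower k Λ K] [Algebra R K]
  [IsScalarTower k R K]

/-- the number of functions which are independent on the members of a covering family -/
theorem select {m e h : ℕ} (hm : Algebra.trdeg k R = m) (he : Algebra.trdeg Λ K = e)
    (halg : ∀ x : K, IsAlgebraic (IntermediateField.adjoin Λ (Set.range (algebraMap R K))) x)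
    {r : Fin h → R} (hr : AlgebraicIndependent k r) :
    ∃ (h' : ℕ) (l : Fin h' → Fin h), h + e ≤ h' + m ∧
      AlgebraicIndependent Λ fun i => algebraMap R K (r (l i)) := by
  classical
  obtain ⟨q', hq', r'', hb⟩ := ext_basis hm hr
  obtain ⟨f, hf⟩ := Pool.Agent.W602.GT.basis_of_trdeg he
  have hfin : Algebra.trdeg Λ (IntermediateField.adjoin Λ
      (Set.range fun i => algebraMap R K (r i))) < Cardinal.aleph0 := by
    refine lt_of_le_of_lt (trdeg_le_of_injective (IntermediateField.adjoin Λ
      (Set.range fun i => algebraMap R K (r i))).val (IntermediateField.adjoin Λ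
      (Set.range fun i => algebraMap R K (r i))).val.injective) ?_
    rw [he]
    exact Cardinal.natCast_lt_aleph0
  obtain ⟨h', hh'⟩ := Cardinal.lt_aleph0.1 hfin
  obtain ⟨u, hu, hui, hua⟩ := basis_in (k := Λ) _ hh'
  choose l hl using hu
  refine ⟨h', l, ?_, ?_⟩
  · have h1 : e ≤ h' + q' := by
      refine card_bound (Λ := Λ) (K := K) (N := h' + q') hf.1
        (v := Fin.append u (fun i => algebraMap R K (r'' i))) fun i => ?_
      have hu' : ∀ i, u i ∈ Set.range (Fin.append u (fun i => algebraMap R K (r'' i))) :=
        fun i => ⟨Fin.castAdd q' i, by rw [Fin.append_left]⟩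
      have hr' : ∀ i, algebraMap R K (r'' i) ∈
          Set.range (Fin.append u (fun i => algebraMap R K (r'' i))) :=
        fun i => ⟨Fin.natAdd h' i, by rw [Fin.append_right]⟩
      refine alg_trans (S := Set.range (algebraMap R K)) ?_ (halg _)
      rintro _ ⟨x, rfl⟩
      have h2 : IsAlgebraic (IntermediateField.adjoin k (Set.range (Fin.append r r''))) x :=
        hb.isAlgebraic_field.isAlgebraic x
      have h3 := alg_push' (k := k) (R := R) (Λ := Λ) (K := K) h2
      refine alg_trans ?_ h3
      rintro _ ⟨j, rfl⟩
      refine Fin.addCases (fun j => ?_) (fun j => ?_) j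
      · change IsAlgebraic _ (algebraMap R K ((Fin.append r r'' : Fin (h + q') → R)
          (Fin.castAdd q' j)))
        rw [Fin.append_left]
        have h4 := hua _ (IntermediateField.subset_adjoin Λ _
          (⟨j, rfl⟩ : algebraMap R K (r j) ∈ Set.range fun i => algebraMap R K (r i)))
        refine alg_trans ?_ h4
        rintro _ ⟨i, rfl⟩
        exact isAlgebraic_algebraMap (⟨u i, IntermediateField.subset_adjoin _ _ (hu' i)⟩ :
          IntermediateField.adjoin Λ
            (Set.range (Fin.append u (fun i => algebraMap R K (r'' i)))))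
      · change IsAlgebraic _ (algebraMap R K ((Fin.append r r'' : Fin (h + q') → R)
          (Fin.natAdd h j)))
        rw [Fin.append_right]
        exact isAlgebraic_algebraMap (⟨algebraMap R K (r'' j),
          IntermediateField.subset_adjoin _ _ (hr' j)⟩ : IntermediateField.adjoin Λ
            (Set.range (Fin.append u (fun i => algebraMap R K (r'' i)))))
    omega
  · have h1 : (fun i => algebraMap R K (r (l i))) = u := funext hl
    rw [h1]
    exact hui

variable [Algebra.EssFiniteType k R]

/-- **Easy addition for covering families.** -/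
theorem easy {m c0 e h : ℕ} (hm : Algebra.trdeg k R = m) (hΛ : Algebra.trdeg k Λ = c0)
    (he : Algebra.trdeg Λ K = e)
    (halg : ∀ x : K, IsAlgebraic (IntermediateField.adjoin Λ (Set.range (algebraMap R K))) x)
    (hk : KodR k R m h) : ∃ h', h + e ≤ h' + m ∧ KodR Λ K e h' := by
  classical
  have hΛ0 : CharZero Λ := charZero_of_injective_algebraMap (algebraMap k Λ).injective
  obtain ⟨r, -, hr, -⟩ := Pool.Agent.Y944.NT.exists_crd (k := k) hΛ
  have hj : Algebra.trdeg Λ (IntermediateField.adjoin Λ (Set.range (algebraMap R K))) = e := by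
    have h1 := trdeg_add_eq Λ (IntermediateField.adjoin Λ (Set.range (algebraMap R K))) (A := K)
    have h2 : Algebra.IsAlgebraic (IntermediateField.adjoin Λ (Set.range (algebraMap R K))) K :=
      ⟨halg⟩
    have h3 : Algebra.trdeg (IntermediateField.adjoin Λ (Set.range (algebraMap R K))) K = 0 :=
      trdeg_eq_zero_iff.2 h2
    rw [h3, add_zero, he] at h1
    exact h1
  obtain ⟨yK, hyR, hyind, hyalg⟩ := basis_in (k := Λ) (Set.range (algebraMap R K)) hj
  choose y' hy' using hyR
  have hyK : (fun i => algebraMap R K (y' i)) = yK := funext hy'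
  have hind : AlgebraicIndependent Λ (fun i => algebraMap R K (y' i)) := by rw [hyK]; exact hyind
  have hindC : AlgebraicIndependent k y' := by
    have h1 : AlgebraicIndependent k (fun i => algebraMap R K (y' i)) :=
      hind.restrictScalars (algebraMap k Λ).injective
    exact AlgebraicIndependent.of_comp (IsScalarTower.toAlgHom k R K) h1
  obtain ⟨q, hq, y'', hy⟩ := ext_basis hm hindC
  subst hq
  have hy'' : ∀ l, IsAlgebraic
      (IntermediateField.adjoin k (Set.range (Fin.append (fun i => algebraMap R K (y' i))
        (fun i => algebraMap Λ K (r i)) : Fin (e + c0) → K))) (algebraMap R K (y'' l)) := by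
    intro l
    refine alg_yr hr ?_
    rw [hyK]
    exact hyalg _ (IntermediateField.subset_adjoin _ _ ⟨_, rfl⟩)
  obtain ⟨E, hE⟩ := Pool.Agent.Y173.QA.exists_duals hy
  have hzind : AlgebraicIndependent k (Fin.append (fun i => algebraMap R K (y' i))
      (fun i => algebraMap Λ K (r i)) : Fin (e + c0) → K) := by
    have h1 := hr.1.sumElim_comp hind
    have h2 := h1.comp (finSumFinEquiv (m := e) (n := c0)).symm (Equiv.injective _)
    rw [Pool.Agent.L0h17.TR.append_elim]
    exact h2
  obtain ⟨T, X, hTX⟩ := exists_TX (k := k) (y'' := fun l => algebraMap R K (y'' l)) hzind hy''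
  have hyK' : AlgebraicIndependent k (Fin.append (fun i => algebraMap R K (y' i))
      (fun l => algebraMap R K (y'' l)) : Fin (e + q) → K) := by
    have h1 := hy.1.map' (f := IsScalarTower.toAlgHom k R K)
      (IsScalarTower.toAlgHom k R K).injective
    have h2 : (Fin.append (fun i => algebraMap R K (y' i))
      (fun l => algebraMap R K (y'' l)) : Fin (e + q) → K) =
      (IsScalarTower.toAlgHom k R K) ∘ (Fin.append y' y'') := by
      funext i
      exact (append_map (algebraMap R K) y' y'' i).symm
    rw [h2]
    exact h1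
  obtain ⟨s, hs⟩ := exists_sel hTX hyK'
  obtain ⟨N, hN, Φ, hΦ, D, hD, hrat⟩ := hk
  have hfr : ∀ j, Φ j D = Φ j D := fun j => rfl
  have hE0 : Φ 0 E ≠ 0 := Pool.Agent.L0h17.DN.ne_frame (hΦ 0).1 hD hy hE
  have hratE : ∀ j : Fin h, Φ j.succ D / Φ 0 D = Φ j.succ E / Φ 0 E := by
    intro j
    rw [Pool.Agent.L0h17.DN.ratio_eq hm (hΦ 0).1 (hΦ j.succ).1 hD E, mul_div_assoc,
      div_self hE0, mul_one]
  obtain ⟨h', l, hh', hli⟩ := select (Λ := Λ) (K := K) hm he halg hrat
  -- the forms
  let F : Fin e → Derivation Λ K K →ₗ[K] K := fun i => ev Λ (algebraMap R K (y' i))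
  let μ : Fin (h + 1) → K := fun j =>
    (X.submatrix s id).det ^ N * algebraMap R K (Φ j E)
  let ι : Fin (h' + 1) → Fin (h + 1) := Fin.cases 0 fun i => (l i).succ
  obtain ⟨G0, hG0⟩ : ∃ G0 : Fin e → Derivation Λ K K,
      ∀ i j, G0 i (algebraMap R K (y' j)) = if i = j then 1 else 0 := by
    choose G hG using fun i : Fin e => der_ind hind (fun j => if i = j then 1 else 0)
    exact ⟨G, hG⟩
  have hdet : (Matrix.of fun a b => F b (G0 a) : Matrix (Fin e) (Fin e) K).det = 1 := by
    have h1 : (Matrix.of fun a b => F b (G0 a) : Matrix (Fin e) (Fin e) K) = 1 := by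
      ext a b
      rw [Matrix.of_apply, Matrix.one_apply]
      exact hG0 a b
    rw [h1, Matrix.det_one]
  have hX0 : (X.submatrix s id).det ^ N ≠ 0 := pow_ne_zero _ hs
  refine ⟨h', by omega, N, hN, fun j => ff F N (μ (ι j)), fun j => ⟨ff_pluri F N _, ?_⟩, G0,
    ?_, ?_⟩
  · intro P hP G hG
    have hpos : 1 ≤ e := by
      by_contra h0
      have h1 : e = 0 := by omega
      rw [h1] at he
      have h2 : Algebra.IsAlgebraic Λ K := by
        rw [← trdeg_eq_zero_iff]
        simpa using he
      obtain ⟨t, ht0, ht⟩ := P.surj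
      exact P.transcendental_of_ord_ne (by omega) (h2.isAlgebraic t)
    obtain ⟨m0, rfl⟩ : ∃ m0, e = m0 + 1 := ⟨e - 1, by omega⟩
    have h3 := star (R := R) (j := m0 + 1) (q := q) hr he hm hy hE (hΦ (ι j)).1 (hΦ (ι j)).2
      hTX s hP hG
    have h4 : ff F N (μ (ι j)) G = ((Matrix.of fun a b => G a (algebraMap R K (y' b))).det *
      (X.submatrix s id).det) ^ N * algebraMap R K (Φ (ι j) E) := by
      unfold ff
      have h5 : (Matrix.of fun a b => F b (G a) : Matrix (Fin (m0 + 1)) (Fin (m0 + 1)) K) =
        Matrix.of fun a b => G a (algebraMap R K (y' b)) := rfl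
      rw [h5, mul_pow]
      ring
    change P.Reg (ff F N (μ (ι j)) G)
    rw [h4]
    exact h3
  · change ff F N (μ (ι 0)) G0 ≠ 0
    unfold ff
    rw [hdet, one_pow, one_mul]
    exact mul_ne_zero hX0 ((map_ne_zero (algebraMap R K)).2 hE0)
  · have h1 : (fun j : Fin h' => ff F N (μ (ι j.succ)) G0 / ff F N (μ (ι 0)) G0) =
        fun i => algebraMap R K (Φ (l i).succ D / Φ 0 D) := by
      funext i
      unfold ff
      rw [hdet, one_pow, one_mul, one_mul, hratE]
      change (X.submatrix s id).det ^ N * algebraMap R K (Φ (l i).succ E) /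
        ((X.submatrix s id).det ^ N * algebraMap R K (Φ 0 E)) = _
      rw [mul_div_mul_left _ _ hX0, map_div₀]
    rw [h1]
    exact hli

end

end Pool.Agent.L0h17.IT
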