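import Pool.Agent.L0h17.IT.EA

/-!
Fibrations of a variety and fibrations of the general member of a covering family.
-/

set_option autoImplicit false
set_option linter.overlappingInstances false
set_option linter.unusedSectionVars false

open FF IntermediateField Pool.Agent.W619.PQ Pool.Agent.W619.PL Pool.Agent.W619.TW
  Pool.Agent.W603.LV Pool.Agent.Y172
open Pool.Agent.W602.GT (Divisorial RegAt IsPluri DerReg exists_der)
open Pool.Agent.L0h17.TR (KodR ff ff_pluri ev basis_in ext_basis alg_yr alg_push' exists_TX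
  exists_sel der_ind)

namespace Pool.Agent.L0h17.IT

section

variable {Λ K : Type} [Field Λ] [Field K] [Algebra Λ K]

theorem alg_sub {E1 : IntermediateField Λ K} {S : Set E1} {x : E1}
    (h : IsAlgebraic (IntermediateField.adjoin Λ (Subtype.val '' S)) (x : K)) :
    IsAlgebraic (IntermediateField.adjoin Λ S) x := by
  have h1 : (IntermediateField.adjoin Λ S).map E1.val =
      IntermediateField.adjoin Λ (Subtype.val '' S) := by
    rw [IntermediateField.adjoin_map]
    rfl
  have h2 : ∀ z : IntermediateField.adjoin Λ S, ((z : E1) : K) ∈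
      IntermediateField.adjoin Λ (Subtype.val '' S) := by
    intro z
    rw [← h1]
    exact ⟨z, z.2, rfl⟩
  let f : IntermediateField.adjoin Λ S →+* IntermediateField.adjoin Λ (Subtype.val '' S) :=
    ((algebraMap E1 K).comp (algebraMap (IntermediateField.adjoin Λ S) E1)).codRestrict _ h2
  have hf : Function.Surjective f := by
    rintro ⟨y, hy⟩
    rw [← h1] at hy
    obtain ⟨z, hz, hzy⟩ := hy
    exact ⟨⟨z, hz⟩, Subtype.ext hzy⟩
  exact h.of_ringHom_of_comp_eq f (algebraMap E1 K) hf (algebraMap E1 K).injective rfl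

end

section

variable {k L Λ K : Type} [Field k] [CharZero k] [Field L] [Field Λ] [Field K] [Algebra k L]
  [Algebra k Λ] [Algebra k K] [Algebra Λ K] [IsScalarTower k Λ K] [Algebra L K]
  [IsScalarTower k L K] [Algebra.EssFiniteType k L]

/-- **Fibrations and covering families.** -/
theorem fam {n c0 e : ℕ} (hn : Algebra.trdeg k L = n) (hΛ : Algebra.trdeg k Λ = c0)
    (he : Algebra.trdeg Λ K = e)
    (halg : ∀ x : K, IsAlgebraic (IntermediateField.adjoin Λ (Set.range (algebraMap L K))) x)
    (E : IntermediateField k L) [Algebra.EssFiniteType k E] {d f p q : ℕ}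
    (hd : Algebra.trdeg k E = d) (hf : Algebra.trdeg E L = f) (hp : KodR k E d p)
    (hq : KodR E L f q) :
    ∃ (E1 : IntermediateField Λ K) (d1 f1 p1 q1 : ℕ), (∀ x : K, IsAlgebraic E1 x → x ∈ E1) ∧
      Algebra.trdeg Λ E1 = d1 ∧ Algebra.trdeg E1 K = f1 ∧ p + q + e ≤ p1 + q1 + n ∧
      KodR Λ E1 d1 p1 ∧ KodR E1 K f1 q1 := by
  classical
  obtain ⟨A, hA⟩ : ∃ A : IntermediateField Λ K,
      A = IntermediateField.adjoin Λ (Set.range (algebraMap E K)) := ⟨_, rfl⟩
  obtain ⟨E1, hE1⟩ : ∃ E1 : IntermediateField Λ K,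
      E1 = (algebraicClosure A K).restrictScalars Λ := ⟨_, rfl⟩
  have hmem : ∀ x : K, x ∈ E1 ↔ IsAlgebraic A x := by
    intro x
    rw [hE1, IntermediateField.mem_restrictScalars, mem_algebraicClosure_iff]
  have hEA : ∀ x : E, algebraMap E K x ∈ A := fun x => by
    rw [hA]
    exact IntermediateField.subset_adjoin _ _ ⟨x, rfl⟩
  have hAE1 : ∀ x ∈ A, x ∈ E1 := fun x hx =>
    (hmem x).2 (isAlgebraic_algebraMap (⟨x, hx⟩ : A))
  have hclosed : ∀ x : K, IsAlgebraic E1 x → x ∈ E1 := by
    intro x hx
    rw [hE1] at hx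
    have h1 : IsAlgebraic (algebraicClosure A K) x := hx
    have h2 : Algebra.IsAlgebraic A (algebraicClosure A K) := algebraicClosure.isAlgebraic A K
    exact (hmem x).2 (h1.restrictScalars A)
  letI iE : Algebra E E1 := ((algebraMap E K).codRestrict E1 fun x => hAE1 _ (hEA x)).toAlgebra
  have iE' : ∀ x : E, ((algebraMap E E1 x : E1) : K) = algebraMap E K x := fun x => rfl
  have t1 : IsScalarTower E E1 K := IsScalarTower.of_algebraMap_eq fun x => rfl
  have t2 : IsScalarTower k E E1 := IsScalarTower.of_algebraMap_eq fun x => by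
    apply Subtype.ext
    change algebraMap k K x = algebraMap E K (algebraMap k E x)
    rw [← IsScalarTower.algebraMap_apply]
  have t3 : IsScalarTower E L K := inferInstance
  have hE0 : CharZero E := charZero_of_injective_algebraMap (algebraMap k E).injective
  have hess : Algebra.EssFiniteType E L := Algebra.EssFiniteType.of_comp k E L
  -- the dimensions
  have hdf : d + f = n := by
    have h3 := trdeg_add_eq k E (A := L)
    rw [hd, hf, hn] at h3
    exact_mod_cast h3
  have hsum := trdeg_add_eq Λ E1 (A := K)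
  rw [he] at hsum
  have hlt1 : Algebra.trdeg Λ E1 < Cardinal.aleph0 := by
    refine lt_of_le_of_lt ?_ (Cardinal.natCast_lt_aleph0 (n := e))
    rw [← hsum]
    exact le_self_add
  have hlt2 : Algebra.trdeg E1 K < Cardinal.aleph0 := by
    refine lt_of_le_of_lt ?_ (Cardinal.natCast_lt_aleph0 (n := e))
    rw [← hsum]
    exact le_add_self
  obtain ⟨d1, hd1⟩ := Cardinal.lt_aleph0.1 hlt1
  obtain ⟨f1, hf1⟩ := Cardinal.lt_aleph0.1 hlt2
  have hdf1 : d1 + f1 = e := by
    rw [hd1, hf1] at hsum
    exact_mod_cast hsum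
  have hkK : Algebra.trdeg k K = (c0 + e : ℕ) := by
    rw [← _root_.trdeg_add_eq k Λ (A := K), hΛ, he]
    push_cast
    rfl
  have hlt3 : Algebra.trdeg E E1 < Cardinal.aleph0 := by
    have h1 := _root_.trdeg_add_eq k E (A := K)
    rw [hkK] at h1
    have h2 := _root_.trdeg_add_eq E E1 (A := K)
    refine lt_of_le_of_lt ?_ (Cardinal.natCast_lt_aleph0 (n := c0 + e))
    rw [← h1, ← h2]
    exact le_trans le_self_add le_add_self
  obtain ⟨c1, hc1⟩ := Cardinal.lt_aleph0.1 hlt3
  -- the base
  obtain ⟨p1, hp1, hkp⟩ := easy (k := k) (R := E) (Λ := Λ) (K := E1) hd hΛ hd1 (by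
    intro x
    refine alg_sub (S := Set.range (algebraMap E E1)) ?_ 
    have h1 : Subtype.val '' (Set.range (algebraMap E E1)) = Set.range (algebraMap E K) := by
      rw [← Set.range_comp]
      rfl
    rw [h1, ← hA]
    exact (hmem x).1 x.2) hp
  -- the fibre
  obtain ⟨q1, hq1, hkq⟩ := easy (k := E) (R := L) (Λ := E1) (K := K) hf hc1 hf1 (by
    intro x
    have h1 : ∀ z : IntermediateField.adjoin Λ (Set.range (algebraMap L K)),
        (z : K) ∈ IntermediateField.adjoin E1 (Set.range (algebraMap L K)) := by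
      intro z
      have h2 : (IntermediateField.adjoin Λ (Set.range (algebraMap L K))).toSubfield ≤
          (IntermediateField.adjoin E1 (Set.range (algebraMap L K))).toSubfield := by
        rw [IntermediateField.adjoin_toSubfield, Subfield.closure_le]
        rintro _ (⟨z, rfl⟩ | hz)
        · exact (IntermediateField.adjoin E1 (Set.range (algebraMap L K))).algebraMap_mem
            (algebraMap Λ E1 z)
        · exact IntermediateField.subset_adjoin _ _ hz
      exact h2 z.2
    exact (halg x).ringHom_of_comp_eq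
      ((algebraMap (IntermediateField.adjoin Λ (Set.range (algebraMap L K))) K).codRestrict
        (IntermediateField.adjoin E1 (Set.range (algebraMap L K))) h1) (RingHom.id K)
      (RingHom.injective _) rfl) hq
  exact ⟨E1, d1, f1, p1, q1, hclosed, hd1, hf1, by omega, hkp, hkq⟩

end

end Pool.Agent.L0h17.IT
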