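import Pool.Agent.L0h17.IT.Fam
import Pool.Agent.L0h17.IT.BC2
import Pool.Agent.L0h17.TR.Eqv
import Pool.Agent.L0h17.TR.Ctr
import Pool.Agent.N999.SX.FG

/-!
Iitaka's inequality and covering families.
-/

set_option autoImplicit false
set_option linter.overlappingInstances false
set_option linter.unusedSectionVars false

open FF IntermediateField Pool.Agent.W619.PQ Pool.Agent.W619.PL Pool.Agent.W619.TW
  Pool.Agent.W603.LV Pool.Agent.Y172
open Pool.Agent.W602.GT (Divisorial RegAt IsPluri DerReg)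
open Pool.Agent.L0h17.TR (KodR Iit iit_down kod_mono)
open Pool.Agent.L0h17.DN (OrdAt geQ_int)

namespace Pool.Agent.L0h17.IT

/-- Iitaka's inequality for the fibrations of a variety -/
def Iitk (k L : Type) [Field k] [Field L] [Algebra k L] (n : ℕ) : Prop :=
  ∀ (E : IntermediateField k L) (d f p q : ℕ), (∀ x : L, IsAlgebraic E x → x ∈ E) →
    Algebra.trdeg k E = d → Algebra.trdeg E L = f → KodR k E d p → KodR E L f q →
      KodR k L n (p + q)

section

variable {k L Λ K : Type} [Field k] [CharZero k] [Field L] [Field Λ] [Field K] [Algebra k L]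
  [Algebra k Λ] [Algebra k K] [Algebra Λ K] [IsScalarTower k Λ K] [Algebra L K]
  [IsScalarTower k L K] [Algebra.EssFiniteType k L]

/-- the upper bound by the members of a covering family -/
theorem mem_bound {n c0 e : ℕ} (hn : Algebra.trdeg k L = n) (hΛ : Algebra.trdeg k Λ = c0)
    (he : Algebra.trdeg Λ K = e)
    (halg : ∀ x : K, IsAlgebraic (IntermediateField.adjoin Λ (Set.range (algebraMap L K))) x)
    (hI : Iitk Λ K e)
    (E : IntermediateField k L) {d f p q : ℕ}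
    (hd : Algebra.trdeg k E = d) (hf : Algebra.trdeg E L = f) (hp : KodR k E d p)
    (hq : KodR E L f q) : ∃ h : ℕ, p + q + e ≤ h + n ∧ KodR Λ K e h := by
  have hess := Pool.Agent.N999.SX.ess_any E
  obtain ⟨E1, d1, f1, p1, q1, h1, h2, h3, h4, h5, h6⟩ := fam hn hΛ he halg E hd hf hp hq
  exact ⟨p1 + q1, h4, hI E1 d1 f1 p1 q1 h1 h2 h3 h5 h6⟩

end

section

variable {K : Type} [Field K] [Algebra ℂ K] {M F : IntermediateField ℂ K} {a b : ℕ} {L : Type}
  [Field L] [Algebra ℂ L] [Algebra L K] [IsScalarTower ℂ L K] [FiniteDimensional L K]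
  [Algebra.EssFiniteType ℂ K]

theorem alg_fin (F : IntermediateField ℂ K) (x : K) :
    IsAlgebraic (IntermediateField.adjoin F (Set.range (algebraMap L K))) x := by
  have h1 : IsAlgebraic L x := Algebra.IsAlgebraic.isAlgebraic x
  have h2 : ∀ z : L, algebraMap L K z ∈
      IntermediateField.adjoin F (Set.range (algebraMap L K)) := fun z =>
    IntermediateField.subset_adjoin _ _ ⟨z, rfl⟩
  exact h1.ringHom_of_comp_eq ((algebraMap L K).codRestrict
    (IntermediateField.adjoin F (Set.range (algebraMap L K))) h2) (RingHom.id K)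
    (RingHom.injective _) rfl

theorem trdeg_over (ha : Algebra.trdeg ℂ F = a) (hab : Algebra.trdeg ℂ K = (a + b : ℕ)) :
    Algebra.trdeg F K = b := by
  have h3 := trdeg_add_eq ℂ F (A := K)
  rw [ha, hab] at h3
  have h4 : Algebra.trdeg F K < Cardinal.aleph0 := by
    refine lt_of_le_of_lt ?_ (Cardinal.natCast_lt_aleph0 (n := a + b))
    rw [← h3]
    exact le_add_self
  obtain ⟨r, hr⟩ := Cardinal.lt_aleph0.1 h4
  rw [hr] at h3 ⊢
  have h5 : a + r = a + b := by exact_mod_cast h3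
  have h6 : r = b := by omega
  rw [h6]

/-- **Products: the bound.** -/
theorem prod_bound (ha : Algebra.trdeg ℂ F = a) (hb : Algebra.trdeg ℂ M = b)
    (hab : Algebra.trdeg ℂ K = (a + b : ℕ)) (hs : M ⊔ F = ⊤) (hI : Iitk F K b)
    (E : IntermediateField ℂ L) {d f p q : ℕ}
    (hd : Algebra.trdeg ℂ E = d) (hf : Algebra.trdeg E L = f) (hp : KodR ℂ E d p)
    (hq : KodR E L f q) : ∃ h : ℕ, p + q ≤ a + h ∧ KodR ℂ M b h := by
  have hLn : Algebra.trdeg ℂ L = (a + b : ℕ) :=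
    (Pool.Agent.Y190.BV.trdeg_ext (k := ℂ) (K := L) (L := K)).symm.trans hab
  have hessL : Algebra.EssFiniteType ℂ L := Pool.Agent.TH466.QG.ess_below (K := K)
  have hFK := trdeg_over ha hab
  obtain ⟨h, h1, h2⟩ := mem_bound (k := ℂ) (L := L) (Λ := F) (K := K) hLn ha hFK
    (alg_fin F) hI E hd hf hp hq
  obtain ⟨y, t, Ey, Et, hZ, f', hpr⟩ := Pool.Agent.L0h17.KU.setup ha hb hab hs
  exact ⟨h, by omega, bc_down hpr f' hZ (fd_basis hZ) hFK h2⟩

/-- **Products: the transfer.** -/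
theorem prod_iit (ha : Algebra.trdeg ℂ F = a) (hb : Algebra.trdeg ℂ M = b)
    (hab : Algebra.trdeg ℂ K = (a + b : ℕ)) (hs : M ⊔ F = ⊤) (hI : Iitk F K b)
    (hκ : ∀ h, KodR ℂ M b h → KodR ℂ L (a + b) (a + h)) : Iitk ℂ L (a + b) := by
  intro E d f p q _ hd hf hp hq
  obtain ⟨h, h1, h2⟩ := prod_bound ha hb hab hs hI E hd hf hp hq
  exact kod_mono h1 (hκ h h2)

theorem iit_of_kod {k R : Type} [Field k] [CharZero k] [Field R] [Algebra k R] {n m h : ℕ}
    (H : ∃ Φ : Fin (h + 1) → (Fin n → Derivation k R R) → R,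
    (∀ j, IsPluri m (Φ j) ∧ ∀ P : Place k R, Divisorial n P → RegAt P (Φ j)) ∧
    ∃ D, Φ 0 D ≠ 0 ∧ AlgebraicIndependent k fun j : Fin h => Φ j.succ D / Φ 0 D) :
    Iit k R n (fun _ => 0) m h := by
  obtain ⟨Φ, hΦ, D, hD, hind⟩ := H
  refine ⟨Φ, fun j => ⟨(hΦ j).1, fun P hP G hG => ?_⟩, D, hD, hind⟩
  have h1 : (-((m : ℚ) * 0)) = ((0 : ℤ) : ℚ) := by simp
  rw [h1]
  exact geQ_int.2 ((hΦ j).2 P hP G hG)

theorem kod_of_iit {k R : Type} [Field k] [CharZero k] [Field R] [Algebra k R] {n m h : ℕ} (hm : 1 ≤ m)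
    (H : Iit k R n (fun _ => 0) m h) : KodR k R n h := by
  obtain ⟨Φ, hΦ, D, hD, hind⟩ := H
  refine ⟨m, hm, Φ, fun j => ⟨(hΦ j).1, fun P hP G hG => ?_⟩, D, hD, hind⟩
  have h2 := (hΦ j).2 P hP G hG
  have h1 : (-((m : ℚ) * 0)) = ((0 : ℤ) : ℚ) := by simp
  rw [h1] at h2
  exact geQ_int.1 h2

/-- **Finite images.** -/
theorem fin_iit {n : ℕ} (hn : Algebra.trdeg ℂ L = n) {ι : Type} [Finite ι] {a : ι → K}
    (ha : Submodule.span L (Set.range a) = ⊤)
    (heff : ∃ M : ℕ, 1 ≤ M ∧ ∃ ω : (Fin n → Derivation ℂ K K) → K, IsPluri M ω ∧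
      (∃ D, ω D ≠ 0) ∧ ∀ Q : Place ℂ K, Divisorial n Q → ∀ i,
        RegAt Q (fun D => a i ^ (2 * M + 1) * ω D))
    (hI : Iitk ℂ K n) : Iitk ℂ L n := by
  obtain ⟨M, hM, ω, hω, hω0, hreg⟩ := heff
  have hessL : Algebra.EssFiniteType ℂ L := Pool.Agent.TH466.QG.ess_below (K := K)
  have hnK : Algebra.trdeg ℂ K = n := by
    rw [Pool.Agent.Y190.BV.trdeg_ext (k := ℂ) (K := L) (L := K), hn]
  have hc : Algebra.trdeg ℂ ℂ = (0 : ℕ) := by
    have h1 : Algebra.IsAlgebraic ℂ ℂ := inferInstance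
    rw [← trdeg_eq_zero_iff] at h1
    rw [h1]
    rfl
  intro E d f p q _ hd hf hp hq
  obtain ⟨h, h1, h2⟩ := mem_bound (k := ℂ) (L := L) (Λ := ℂ) (K := K) hn hc hnK (fun x => by
    have h1 : IsAlgebraic L x := Algebra.IsAlgebraic.isAlgebraic x
    have h2 : ∀ z : L, algebraMap L K z ∈
        IntermediateField.adjoin ℂ (Set.range (algebraMap L K)) := fun z =>
      IntermediateField.subset_adjoin _ _ ⟨z, rfl⟩
    exact h1.ringHom_of_comp_eq ((algebraMap L K).codRestrict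
      (IntermediateField.adjoin ℂ (Set.range (algebraMap L K))) h2) (RingHom.id K)
      (RingHom.injective _) rfl) hI E hd hf hp hq
  obtain ⟨m, hm, hΦ⟩ := h2
  have h3 := iit_of_kod hΦ
  have h4 := iit_down (δ := fun _ => 0) (δ' := fun _ => 0) (fun Q P e _ _ => by simp) hω hω0
    (fun Q hQ i G hG => by
      have h5 : (-((M : ℚ) * 0)) = ((0 : ℤ) : ℚ) := by simp
      rw [h5]
      exact geQ_int.2 (hreg Q hQ i G hG)) hn ha h3
  exact kod_mono (by omega) (kod_of_iit (Nat.mul_pos (by omega) Module.finrank_pos) h4)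

end

end Pool.Agent.L0h17.IT
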