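import Pool.Agent.L0h17.TR.Sel
import Pool.Agent.L0h18.EF.Core

/-!
The restriction of a regular pluricanonical form to the members of a family, over any field of
characteristic zero. (`Pool/Agent/L0h17/TR/Star.lean` over an arbitrary field.)
-/

set_option autoImplicit false
set_option linter.overlappingInstances false
set_option linter.unusedSectionVars false

open FF IntermediateField Pool.Agent.W619.PQ Pool.Agent.W619.PL Pool.Agent.W619.TW
  Pool.Agent.W603.LV Pool.Agent.Y172
open Pool.Agent.W602.GT (Divisorial RegAt IsPluri DerReg exists_der)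
open Pool.Agent.L0h17.TR (polys append_elim frame_of rcs rsb der_ind det_block)

namespace Pool.Agent.L0h17.IT

section

variable {k R K : Type} [Field k] [CharZero k] [Field R] [Field K] [Algebra k R] [Algebra k K] [Algebra R K]
  [IsScalarTower k R K] [Algebra.EssFiniteType k R] {a n : ℕ}

/-- pull-backs of regular forms, evaluated on vector fields which are regular on the functions of the
base -/
theorem pull_reg (ha : Algebra.trdeg k R = a) (hn : Algebra.trdeg k K = n) {y : Fin a → R}
    (hy : IsTranscendenceBasis k y) {E : Fin a → Derivation k R R}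
    (hE : ∀ i j, E i (y j) = if i = j then 1 else 0) {w : ℕ}
    {α : (Fin a → Derivation k R R) → R} (hα : IsPluri w α)
    (hreg : ∀ P : Place k R, Divisorial a P → RegAt P α)
    {Q : Place k K} (hQ : Divisorial n Q) {D : Fin a → Derivation k K K}
    (hD : ∀ i (f : R), Q.Reg (algebraMap R K f) → Q.Reg (D i (algebraMap R K f))) :
    Ge Q 0 ((Matrix.of fun i j => D i (algebraMap R K (y j))).det ^ w * algebraMap R K (α E)) := by
  classical
  by_cases htriv : ∃ f : R, Q.ord (algebraMap R K f) ≠ 0
  · obtain ⟨e, P, hP⟩ := exists_over (K := R) Q htriv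
    have hPd : Divisorial a P := Pool.Agent.W619.Y.pDIVR k R K a n P Q e ha hn hP hQ
    obtain ⟨yP, EP, i0, hl⟩ := exists_loc ha hPd
    have h1 := Pool.Agent.W73.PG.PULL.form_eq (L := K) y yP hy hl.bas E EP hE hl.dual
      (m := w) α hα D
    rw [h1]
    have h2 : P.Reg (α EP) := hreg P hPd EP hl.pres
    have h9 : Ge Q 0 (Matrix.of fun a c => D a (algebraMap R K (yP c)) :
        Matrix (Fin a) (Fin a) K).det :=
      Pool.Agent.W619.PQ.ge_det Q _ fun a b => hD a _ (hP.reg.2 (hl.reg b))
    have h10 := h9.pow w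
    rw [mul_zero] at h10
    have h3 : Ge Q 0 (algebraMap R K (α EP)) := hP.reg.2 h2
    have h4 := h10.mul h3
    rwa [zero_add] at h4
  · push Not at htriv
    have h0 : ∀ f : R, Q.Reg (algebraMap R K f) := fun f => Or.inr (htriv f).ge
    have h9 : Ge Q 0 (Matrix.of fun i j => D i (algebraMap R K (y j)) :
        Matrix (Fin a) (Fin a) K).det :=
      Pool.Agent.W619.PQ.ge_det Q _ fun a b => hD a _ (h0 _)
    have h10 := h9.pow w
    rw [mul_zero] at h10
    have h3 : Ge Q 0 (algebraMap R K (α E)) := h0 _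
    have h4 := h10.mul h3
    rwa [zero_add] at h4

end

section

variable {k R Λ K : Type} [Field k] [CharZero k] [Field R] [Field Λ] [Field K] [Algebra k R] [Algebra k Λ] [Algebra k K]
  [Algebra Λ K] [IsScalarTower k Λ K] [Algebra R K] [IsScalarTower k R K]
  [Algebra.EssFiniteType k R] {c0 j q m : ℕ}

/-- the vector fields which move the parameters, and which are regular on the functions of `Y` -/
theorem moving {r : Fin c0 → Λ} (hr : IsTranscendenceBasis k r)
    (htr : Algebra.trdeg Λ K = (m + 1 : ℕ)) {Q : Place Λ K} (hQ : Divisorial (m + 1) Q) :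
    ∃ D : Fin c0 → Derivation k K K,
      (∀ l a, D l (algebraMap Λ K (r a)) = if a = l then 1 else 0) ∧
      ∀ l (f : R), Q.Reg (algebraMap R K f) → Q.Reg (D l (algebraMap R K f)) := by
  classical
  obtain ⟨s0, hs00, hs0⟩ := Q.surj
  obtain ⟨u, hu⟩ := hQ
  change Fin m → K at u
  change ∀ p : MvPolynomial (Fin m) Λ, _ at hu
  obtain ⟨S, hS⟩ := IntermediateField.fg_top k R
  set w : Fin (m + c0) → K := Fin.append u (fun i => algebraMap Λ K (r i)) with hw
  set N1 : IntermediateField k K := IntermediateField.adjoin k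
    ((algebraMap R K '' (S : Set R)) ∪ Set.range (Fin.cons s0 w : Fin (m + c0 + 1) → K)) with hN1
  have hess : Algebra.EssFiniteType k N1 := by
    rw [IntermediateField.essFiniteType_iff, hN1]
    exact IntermediateField.fg_adjoin_of_finite
      ((S.finite_toSet.image _).union (Set.finite_range _))
  have hmem : ∀ i, (Fin.cons s0 w : Fin (m + c0 + 1) → K) i ∈ N1 := fun i =>
    IntermediateField.subset_adjoin _ _ (Or.inr ⟨i, rfl⟩)
  have hs1 : s0 ∈ N1 := by simpa using hmem 0
  have hw1 : ∀ i, w i ∈ N1 := fun i => by simpa using hmem i.succ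
  have hR : ∀ f : R, algebraMap R K f ∈ N1 := by
    intro f
    have h1 : (f : R) ∈ IntermediateField.adjoin k (S : Set R) := by rw [hS]; trivial
    have h2 : algebraMap R K f ∈ (IntermediateField.adjoin k (S : Set R)).map
        (IsScalarTower.toAlgHom k R K) := ⟨f, h1, rfl⟩
    rw [IntermediateField.adjoin_map] at h2
    exact IntermediateField.adjoin.mono k _ _ Set.subset_union_left h2
  -- the transcendence degree
  have htK : Algebra.trdeg k K = (m + c0 + 1 : ℕ) := by
    rw [← _root_.trdeg_add_eq k Λ (A := K), htr, ← hr.cardinalMk_eq_trdeg, Cardinal.mk_fin]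
    push_cast
    ring
  have htN : Algebra.trdeg k N1 ≤ (m + c0 + 1 : ℕ) := by
    rw [← htK]
    exact trdeg_le_of_injective N1.val N1.val.injective
  set v1 : Place k N1 := rsb (rcs k Q) ⟨s0, hs1⟩ hs0 with hv1
  have hv : ∀ z : N1, v1.ord z = Q.ord (z : K) := fun z => rfl
  obtain ⟨E1, hb1, hE1, hr1, hp1⟩ := frame_of (k := k) (N := N1) (m := m + c0) v1 htN
    (s := ⟨s0, hs1⟩) hs0 (y' := fun i => ⟨w i, hw1 i⟩) (by
      intro p hp
      have h1 : ((MvPolynomial.aeval (fun i => (⟨w i, hw1 i⟩ : N1)) p : N1) : K) =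
          MvPolynomial.aeval w p := by
        have h2 := (MvPolynomial.aeval_algebraMap_apply (B := K)
          (fun i => (⟨w i, hw1 i⟩ : N1)) p)
        exact h2.symm
      obtain ⟨h3, h4⟩ := polys hr.1 hu p hp
      refine ⟨fun h => h3 ?_, ?_⟩
      · rw [← hw, ← h1, h]
        rfl
      · rw [hv, h1]
        exact h4)
  -- the extension to `K`
  have hindK : AlgebraicIndependent k
      (fun i => ((Fin.cons (⟨s0, hs1⟩ : N1) (fun i => (⟨w i, hw1 i⟩ : N1)) :
        Fin (m + c0 + 1) → N1) i : K)) := hb1.1.map' (f := N1.val) N1.val.injective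
  choose D hD using fun l : Fin c0 => der_ind hindK
    (fun i => if i = (Fin.natAdd m l).succ then 1 else 0)
  have hDw : ∀ l a, D l (algebraMap Λ K (r a)) = if a = l then 1 else 0 := by
    intro l a
    have h1 := hD l (Fin.natAdd m a).succ
    simp only [Fin.cons_succ, hw, Fin.append_right] at h1
    rw [h1]
    have h2 : ((Fin.natAdd m a).succ = (Fin.natAdd m l).succ) ↔ a = l := by
      rw [Fin.succ_inj]
      exact (Fin.natAdd_injective c0 m).eq_iff
    simp only [h2]
  refine ⟨D, hDw, fun l f hf => ?_⟩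
  have h1 := Pool.Agent.W73.PG.PULL.chain (L := K) _ hb1 E1 hE1 (D l) (⟨algebraMap R K f, hR f⟩ : N1)
  have h2 : ∀ c, D l (algebraMap N1 K ((Fin.cons (⟨s0, hs1⟩ : N1)
      (fun i => (⟨w i, hw1 i⟩ : N1)) : Fin (m + c0 + 1) → N1) c)) =
      if c = (Fin.natAdd m l).succ then 1 else 0 := fun c => hD l c
  simp only [h2, ite_mul, one_mul, zero_mul, Finset.sum_ite_eq', Finset.mem_univ, if_true] at h1
  change D l (algebraMap R K f) = _ at h1
  rw [h1]
  have h3 : v1.Reg (⟨algebraMap R K f, hR f⟩ : N1) := by
    rcases hf with hf | hf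
    · exact Or.inl (Subtype.ext hf)
    · exact Or.inr hf
  rcases hp1 (Fin.natAdd m l).succ _ h3 with h4 | h4
  · left
    rw [h4]
    exact map_zero (algebraMap N1 K)
  · exact Or.inr h4

theorem append_map {α β : Type} (f : α → β) (u : Fin j → α) (w : Fin q → α) (i : Fin (j + q)) :
    f ((Fin.append u w : Fin (j + q) → α) i) =
      (Fin.append (fun a => f (u a)) (fun b => f (w b)) : Fin (j + q) → β) i := by
  refine Fin.addCases (fun a => ?_) (fun b => ?_) i
  · simp
  · simp

/-- the restriction of a regular form of `Y` to the members of the family is regular -/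
theorem star {r : Fin c0 → Λ} (hr : IsTranscendenceBasis k r)
    (htr : Algebra.trdeg Λ K = (m + 1 : ℕ)) (hjq : Algebra.trdeg k R = (j + q : ℕ))
    {y' : Fin j → R} {y'' : Fin q → R}
    (hy : IsTranscendenceBasis k (Fin.append y' y'' : Fin (j + q) → R))
    {E : Fin (j + q) → Derivation k R R}
    (hE : ∀ a b, E a ((Fin.append y' y'' : Fin (j + q) → R) b) = if a = b then 1 else 0)
    {p : ℕ} {α : (Fin (j + q) → Derivation k R R) → R} (hα : IsPluri p α)
    (hreg : ∀ P : Place k R, Divisorial (j + q) P → RegAt P α)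
    {T : Matrix (Fin j) (Fin q) K} {X : Matrix (Fin c0) (Fin q) K}
    (hTX : ∀ (H : Derivation k K K) l, H (algebraMap R K (y'' l)) =
      ∑ i, H (algebraMap R K (y' i)) * T i l + ∑ i, H (algebraMap Λ K (r i)) * X i l)
    (s : Fin q → Fin c0) {Q : Place Λ K} (hQ : Divisorial (m + 1) Q)
    {D₁ : Fin j → Derivation Λ K K} (hD₁ : ∀ i, DerReg Q (D₁ i)) :
    Ge Q 0 (((Matrix.of fun a b => D₁ a (algebraMap R K (y' b))).det *
      (X.submatrix s id).det) ^ p * algebraMap R K (α E)) := by
  classical
  obtain ⟨Dm, hDm, hDr⟩ := moving (R := R) hr htr hQ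
  have htK : Algebra.trdeg k K = (m + c0 + 1 : ℕ) := by
    rw [← _root_.trdeg_add_eq k Λ (A := K), htr, ← hr.cardinalMk_eq_trdeg, Cardinal.mk_fin]
    push_cast
    ring
  obtain ⟨u, hu⟩ := hQ
  have hQ' : Divisorial (m + c0 + 1) (rcs k Q) :=
    ⟨Fin.append u (fun i => algebraMap Λ K (r i)), fun p hp => polys hr.1 hu p hp⟩
  have h1 := pull_reg (K := K) hjq htK hy hE hα hreg (Q := rcs k Q) hQ'
    (D := Fin.append (fun i => (D₁ i).restrictScalars k) (fun l => Dm (s l)))
    (fun i f hf => by
      refine Fin.addCases (fun a => ?_) (fun b => ?_) i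
      · rw [Fin.append_left]
        exact hD₁ a _ hf
      · rw [Fin.append_right]
        exact hDr _ f hf)
  have h2 := det_block (k := k) (K := K) (y' := fun i => algebraMap R K (y' i))
    (y'' := fun l => algebraMap R K (y'' l)) (r := fun i => algebraMap Λ K (r i)) hTX s
    (D₁ := fun i => (D₁ i).restrictScalars k) (fun i a => (D₁ i).map_algebraMap (r a))
    (D₂ := fun l => Dm (s l)) (fun l a => hDm (s l) a)
  have h3 : (Matrix.of fun i b => (Fin.append (fun i => (D₁ i).restrictScalars k)
      (fun l => Dm (s l)) i : Derivation k K K)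
        (algebraMap R K ((Fin.append y' y'' : Fin (j + q) → R) b)) :
      Matrix (Fin (j + q)) (Fin (j + q)) K) =
      Matrix.of fun a b => (Fin.append (fun i => (D₁ i).restrictScalars k)
        (fun l => Dm (s l)) a : Derivation k K K)
      ((Fin.append (fun i => algebraMap R K (y' i)) (fun l => algebraMap R K (y'' l)) :
        Fin (j + q) → K) b) := by
    ext a b
    rw [Matrix.of_apply, Matrix.of_apply, append_map (algebraMap R K)]
  rw [h3, h2] at h1
  exact h1

end

end Pool.Agent.L0h17.IT
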